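import Pool.Agent.Helper14.LE.Stmts

open MeasureTheory Set Filter Topology InnerProductSpace

noncomputable section

namespace LEP
namespace E3

lemma arm_of_arg {i : Fin 2} {a b : ℝ} {x : ℂ} (ha : al i < a) (hb : b < be i) (hx : x ≠ 0)
    (h : Complex.arg x ∈ Icc a b) : x ∈ Arm i := ⟨hx, by linarith [h.1], by linarith [h.2]⟩

lemma psi_le {i : Fin 2} (h0 : ST_SEC0) {x : ℂ} (hx : x ∈ Arm i) :
    0 < psi x ∧ psi x ≤ ‖x‖ / 2 := by
  have h := h0.1 i x hx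
  have hn : 0 < ‖x‖ := norm_pos_iff.2 hx.1
  exact ⟨by linarith [h.2.1], h.2.2⟩

/-- lower bound of the imaginary part of `pw` -/
lemma im_ge (h7 : ST_S7) (i : Fin 2) (a b : ℝ) (ha : al i < a) (hb : b < be i) :
    ∃ c : ℝ, 0 < c ∧ ∀ x, x ≠ 0 → Complex.arg x ∈ Icc a b → c * ‖x‖ ^ mm i ≤ (pw i x).im := by
  obtain ⟨c, hc, hc2, h⟩ := h7 i a b ha hb
  refine ⟨c, hc, fun x hx hax => ?_⟩
  have hxn : 0 < ‖x‖ := norm_pos_iff.2 hx
  set r : ℝ := 1 + c / 2 with hr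
  have hr0 : 0 < r := by linarith
  have hrx : (r : ℂ) * x ≠ 0 := mul_ne_zero (by exact_mod_cast hr0.ne') hx
  have hn : ‖(r : ℂ) * x‖ = r * ‖x‖ := by
    rw [norm_mul, Complex.norm_real, Real.norm_of_nonneg hr0.le]
  have h1 := h ((r : ℂ) * x) hrx (by rw [Complex.arg_real_mul x hr0]; exact hax)
    (8 * ‖(r : ℂ) * x‖) le_rfl x ?_ ?_
  · refine le_trans ?_ h1.2.2
    apply mul_le_mul_of_nonneg_left _ hc.le
    apply pow_le_pow_left₀ hxn.le
    rw [hn]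
    nlinarith
  · intro h2
    have h3 : ((c / 2 : ℝ) : ℂ) * x = 0 := by
      have : (r : ℂ) * x - x = 0 := by rw [← h2, sub_self]
      rw [← this, hr]; push_cast; ring
    rcases mul_eq_zero.1 h3 with h4 | h4
    · have : c / 2 = 0 := by exact_mod_cast h4
      linarith
    · exact hx h4
  · have h3 : x - (r : ℂ) * x = -(((c / 2 : ℝ) : ℂ) * x) := by rw [hr]; push_cast; ring
    rw [h3, norm_neg, norm_mul, Complex.norm_real, Real.norm_of_nonneg (by positivity), hn]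
    nlinarith [mul_pos hc hxn]

end E3

open E3 in
theorem st_E3 (h0 : ST_SEC0) (hG : ST_GEO) (hF : ST_GF2) (hT : ST_T2) (hA : ST_E3A) (h5 : ST_S5)
    (h7 : ST_S7) (hU : ST_U2) : ST_E3 := by
  intro a b ha hb
  obtain ⟨b0, hb0, b1, hb1, hb0n, hb1n, cA, hcA, hA⟩ := hA
  obtain ⟨c5, hc5, h5⟩ := h5
  obtain ⟨c7, hc7, hc72, h7'⟩ := h7 0 (a 0) (b 0) (ha 0) (hb 0)
  obtain ⟨ci, hci, hi⟩ := im_ge h7 1 (a 1) (b 1) (ha 1) (hb 1)
  obtain ⟨CU, _, hU⟩ := hU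
  have hB0 := (h0.2.1 0 b0 hb0).1
  have hB1 := (h0.2.1 1 b1 hb1).1
  have hpi := Real.pi_pos
  set B0 := (pw 0 b0).im with hB0d
  set B1 := (pw 1 b1).im with hB1d
  -- constants
  set k0 : ℝ := c5 * c7 * B0 / 12 with hk0
  set k1 : ℝ := c5 * ci * B1 with hk1
  have hk0p : 0 < k0 := by positivity
  have hk1p : 0 < k1 := by positivity
  set K : ℝ := c7 * (cA * k0 * k1) * (Real.pi * c7 ^ 2) with hK
  have hKp : 0 < K := by positivity
  refine ⟨K, hKp, ?_⟩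
  intro Rv hRv x1 x2 hx1 hx2 hn1 hn2 hR1 hR2
  have hx1n : 0 < ‖x1‖ := by linarith
  have hx2n : 0 < ‖x2‖ := by linarith
  have hx10 : x1 ≠ 0 := norm_pos_iff.1 hx1n
  have hx20 : x2 ≠ 0 := norm_pos_iff.1 hx2n
  have hx1A : x1 ∈ Arm 0 := arm_of_arg (ha 0) (hb 0) hx10 hx1
  have hx2A : x2 ∈ Arm 1 := arm_of_arg (ha 1) (hb 1) hx20 hx2
  obtain ⟨hProf, -, -, -, -, hsub, -, -⟩ := hG.2 Rv (fun i => by linarith [hRv i])
  obtain ⟨-, hOp, -, -, -, -, -⟩ := hG.1 _ hProf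
  have hGr := hF _ hProf
  set D := Ddom (R0 Rv) with hD
  have hx1R : x1 ∈ ArmR 0 (Rv 0) := ⟨hx1A, by linarith⟩
  have hx2R : x2 ∈ ArmR 1 (Rv 1) := ⟨hx2A, by linarith⟩
  have hx1D : x1 ∈ D := hsub 0 hx1R
  have hx2D : x2 ∈ D := hsub 1 hx2R
  obtain ⟨-, -, hint, -, -, -, -⟩ := hT _ hProf
  have hInt := hint x1 hx1D x2 hx2D
  -- pointwise lower bound on the punctured ball
  set P : ℝ := c7 * (cA * (k0 / ‖x1‖ ^ 3) * (k1 / ‖x2‖ ^ 9)) with hP
  have hP0 : 0 < P := by positivity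
  have hG1 : k1 / ‖x2‖ ^ 9 ≤ GAR 1 (Rv 1) x2 b1 := by
    have h := h5 1 b1 hb1 hb1n x2 hx2A (by linarith) (Rv 1) (by linarith)
    refine le_trans ?_ h
    have him := hi x2 hx20 hx2
    have hm : mm 1 = 9 := rfl
    rw [hm] at him ⊢
    rw [div_le_div_iff₀ (by positivity) (by positivity)]
    have e : k1 * ‖x2‖ ^ (2 * 9) = c5 * (ci * ‖x2‖ ^ 9) * B1 * ‖x2‖ ^ 9 := by rw [hk1]; ring
    rw [e]
    have h2 : c5 * (ci * ‖x2‖ ^ 9) ≤ c5 * (pw 1 x2).im := mul_le_mul_of_nonneg_left him hc5.le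
    have h3 : c5 * (ci * ‖x2‖ ^ 9) * B1 ≤ c5 * (pw 1 x2).im * B1 :=
      mul_le_mul_of_nonneg_right h2 hB1.le
    exact mul_le_mul_of_nonneg_right h3 (by positivity)
  have hpt : ∀ y, y ≠ x1 → ‖y - x1‖ ≤ c7 * ‖x1‖ → y ∈ D ∧ P ≤ gD D x1 y * gD D y x2 := by
    intro y hy hyd
    obtain ⟨hyR, hg, him⟩ := h7' x1 hx10 hx1 (Rv 0) hR1 y hy hyd
    have hyn1 : ‖y‖ ≤ 3 / 2 * ‖x1‖ := by
      have : ‖y‖ ≤ ‖x1‖ + ‖y - x1‖ := by
        have := norm_add_le x1 (y - x1); rwa [add_sub_cancel] at this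
      nlinarith
    have hyn2 : ‖x1‖ / 2 ≤ ‖y‖ := by
      have : ‖x1‖ ≤ ‖y‖ + ‖y - x1‖ := by
        have := norm_sub_le y (y - x1); rwa [sub_sub_cancel] at this
      nlinarith
    have hyn : 0 < ‖y‖ := by linarith
    refine ⟨hsub 0 hyR, ?_⟩
    have hg1 : c7 ≤ gD D x1 y :=
      hg.trans (hU Rv hRv 0 x1 hx1R y hyR hy.symm).1
    have hg2 : k0 / ‖x1‖ ^ 3 ≤ GAR 0 (Rv 0) y b0 := by
      have h := h5 0 b0 hb0 hb0n y hyR.1 (by linarith) (Rv 0) (by linarith)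
      refine le_trans ?_ h
      have hm : mm 0 = 3 := rfl
      rw [hm] at him ⊢
      rw [div_le_div_iff₀ (by positivity) (by positivity)]
      have h6 : ‖y‖ ^ (2 * 3) ≤ 12 * ‖x1‖ ^ 6 := by
        have := pow_le_pow_left₀ hyn.le hyn1 6
        rw [mul_pow] at this
        norm_num at this ⊢
        have hx6 : 0 < ‖x1‖ ^ 6 := by positivity
        linarith
      have e : k0 * ‖y‖ ^ (2 * 3) = (c5 * c7 * B0) / 12 * ‖y‖ ^ (2 * 3) := by rw [hk0]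
      rw [e]
      have h8 : (c5 * c7 * B0) / 12 * ‖y‖ ^ (2 * 3) ≤ (c5 * c7 * B0) / 12 * (12 * ‖x1‖ ^ 6) :=
        mul_le_mul_of_nonneg_left h6 (by positivity)
      have h9 : (c5 * c7 * B0) / 12 * (12 * ‖x1‖ ^ 6) = c5 * (c7 * ‖x1‖ ^ 3) * B0 * ‖x1‖ ^ 3 := by
        ring
      have h10 : c5 * (c7 * ‖x1‖ ^ 3) ≤ c5 * (pw 0 y).im := mul_le_mul_of_nonneg_left him hc5.le
      have h11 : c5 * (c7 * ‖x1‖ ^ 3) * B0 ≤ c5 * (pw 0 y).im * B0 :=
        mul_le_mul_of_nonneg_right h10 hB0.le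
      have h12 := mul_le_mul_of_nonneg_right h11 (show 0 ≤ ‖x1‖ ^ 3 by positivity)
      linarith
    have hg3 : cA * (k0 / ‖x1‖ ^ 3) * (k1 / ‖x2‖ ^ 9) ≤ gD D y x2 := by
      refine le_trans ?_ (hA Rv hRv y hyR x2 hx2R (by linarith) (by linarith))
      have h13 : cA * (k0 / ‖x1‖ ^ 3) ≤ cA * GAR 0 (Rv 0) y b0 :=
        mul_le_mul_of_nonneg_left hg2 hcA.le
      exact mul_le_mul h13 hG1 (by positivity) (le_trans (by positivity) h13)
    exact mul_le_mul hg1 hg3 (by positivity) (le_trans hc7.le hg1)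
  -- the integral
  have hball : Metric.ball x1 (c7 * ‖x1‖) \ {x1} ⊆ D := by
    intro y hy
    rw [mem_diff, mem_ball_iff_norm, mem_singleton_iff] at hy
    exact (hpt y hy.2 hy.1.le).1
  have hvol : (volume (Metric.ball x1 (c7 * ‖x1‖))).toReal = Real.pi * (c7 * ‖x1‖) ^ 2 := by
    rw [Complex.volume_ball]
    rw [ENNReal.toReal_mul, ENNReal.toReal_pow, ENNReal.toReal_ofReal (by positivity)]
    simp [NNReal.coe_real_pi, mul_comm]
  have hGam : P * (Real.pi * (c7 * ‖x1‖) ^ 2) ≤ Gam D x1 x2 := by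
    unfold Gam
    set S := Metric.ball x1 (c7 * ‖x1‖) \ {x1} with hS
    have hSm : MeasurableSet S := measurableSet_ball.diff (measurableSet_singleton _)
    have hSv : volume.real S = Real.pi * (c7 * ‖x1‖) ^ 2 := by
      rw [Measure.real, hS, measure_diff_null (by simp)]
      exact hvol
    have h1 : P * volume.real S ≤ ∫ z in S, gD D x1 z * gD D z x2 := by
      have h2 : ∫ _ in S, P ≤ ∫ z in S, gD D x1 z * gD D z x2 := by
        apply setIntegral_mono_on _ (hInt.mono_set hball) hSm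
        · intro z hz
          rw [hS, mem_diff, mem_ball_iff_norm, mem_singleton_iff] at hz
          exact (hpt z hz.2 hz.1.le).2
        · refine integrableOn_const ?_ (by simp)
          rw [hS]
          exact (measure_mono diff_subset).trans_lt measure_ball_lt_top |>.ne
      rw [setIntegral_const, smul_eq_mul, mul_comm] at h2
      exact h2
    have h3 : ∫ z in S, gD D x1 z * gD D z x2 ≤ ∫ z in D, gD D x1 z * gD D z x2 := by
      apply setIntegral_mono_set hInt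
      · exact Eventually.of_forall fun z => mul_nonneg (hGr.nonneg _ _) (hGr.nonneg _ _)
      · exact hball.eventuallyLE
    rw [hSv] at h1
    exact h1.trans h3
  obtain ⟨hp1, hp1'⟩ := psi_le h0 hx1A
  obtain ⟨hp2, hp2'⟩ := psi_le h0 hx2A
  unfold Gt
  rw [div_le_div_iff₀ (by positivity) (by positivity)]
  have h20 : psi x1 * psi x2 ≤ ‖x1‖ * ‖x2‖ :=
    mul_le_mul (by linarith) (by linarith) hp2.le hx1n.le
  have h21 : K * (psi x1 * psi x2) ≤ K * (‖x1‖ * ‖x2‖) := mul_le_mul_of_nonneg_left h20 hKp.le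
  have h22 : K * (‖x1‖ * ‖x2‖) = P * (Real.pi * (c7 * ‖x1‖) ^ 2) * (‖x1‖ ^ 2 * ‖x2‖ ^ 10) := by
    rw [hK, hP]
    field_simp
  have h23 := mul_le_mul_of_nonneg_right hGam (show 0 ≤ ‖x1‖ ^ 2 * ‖x2‖ ^ 10 by positivity)
  linarith

end LEP
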