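import Pool.Agent.Helper14.LE.Stmts

open MeasureTheory Set Filter Topology InnerProductSpace

noncomputable section

namespace LEP
namespace GQ1

lemma sq_im (x : ℂ) : (x ^ 2).im = 2 * x.re * x.im := by
  rw [pow_two, Complex.mul_im]; ring

lemma sq_im_pos {x : ℂ} (hx : x ∈ Qd) : 0 < (x ^ 2).im := by
  rw [sq_im]; exact mul_pos (mul_pos two_pos hx.1) hx.2

lemma ne_zero {x : ℂ} (hx : x ∈ Qd) : x ≠ 0 := by
  rintro rfl; exact lt_irrefl _ hx.1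

lemma norm_pos {x : ℂ} (hx : x ∈ Qd) : 0 < ‖x‖ := norm_pos_iff.2 (ne_zero hx)

lemma nsq (x : ℂ) : ‖x‖ ^ 2 = x.re ^ 2 + x.im ^ 2 := by
  rw [← Complex.normSq_eq_norm_sq, Complex.normSq_apply]; ring

/-- the argument of the logarithm minus one -/
def tt (x y : ℂ) : ℝ := 4 * (x ^ 2).im * (y ^ 2).im / ‖x ^ 2 - y ^ 2‖ ^ 2

lemma GQ_eq (x y : ℂ) : GQ x y = (1 / (4 * Real.pi)) * Real.log (1 + tt x y) := rfl

lemma tt_nonneg {x y : ℂ} (hx : x ∈ Qd) (hy : y ∈ Qd) : 0 ≤ tt x y := by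
  unfold tt
  have h1 := sq_im_pos hx
  have h2 := sq_im_pos hy
  positivity

lemma GQ_nonneg {x y : ℂ} (hx : x ∈ Qd) (hy : y ∈ Qd) : 0 ≤ GQ x y := by
  rw [GQ_eq]
  have := Real.log_nonneg (show (1 : ℝ) ≤ 1 + tt x y by linarith [tt_nonneg hx hy])
  have hp := Real.pi_pos
  positivity

lemma GQ_symm (x y : ℂ) : GQ x y = GQ y x := by
  rw [GQ_eq, GQ_eq]
  unfold tt
  rw [norm_sub_rev]
  congr 3
  ring

lemma GQ_le {x y : ℂ} (hx : x ∈ Qd) (hy : y ∈ Qd) {A : ℝ} (hA : 1 + tt x y ≤ A) :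
    GQ x y ≤ (1 / (4 * Real.pi)) * Real.log A := by
  rw [GQ_eq]
  have hp := Real.pi_pos
  apply mul_le_mul_of_nonneg_left _ (by positivity)
  exact Real.log_le_log (by linarith [tt_nonneg hx hy]) hA

lemma norm_add_sq_ge {x y : ℂ} (hx : x ∈ Qd) (hy : y ∈ Qd) :
    ‖x‖ ^ 2 + ‖y‖ ^ 2 ≤ ‖x + y‖ ^ 2 := by
  rw [nsq, nsq, nsq, Complex.add_re, Complex.add_im]
  have := mul_pos hx.1 hy.1
  have := mul_pos hx.2 hy.2
  nlinarith

lemma norm_sq_sub (x y : ℂ) : ‖x ^ 2 - y ^ 2‖ = ‖x - y‖ * ‖x + y‖ := by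
  rw [← norm_mul]; congr 1; ring

lemma psi_pos {x : ℂ} (hx : x ∈ Qd) : 0 < psi x := by
  unfold psi
  exact div_pos (mul_pos hx.1 hx.2) (norm_pos hx)

lemma im_psi {x : ℂ} (hx : x ∈ Qd) : (x ^ 2).im = 2 * ‖x‖ * psi x := by
  have h := (norm_pos hx).ne'
  unfold psi
  rw [sq_im]
  field_simp

lemma key {x y : ℂ} (hx : x ∈ Qd) (hy : y ∈ Qd) (hxy : x ≠ y) :
    tt x y * (‖x - y‖ ^ 2 * (‖x‖ ^ 2 + ‖y‖ ^ 2)) ≤ 4 * (x ^ 2).im * (y ^ 2).im := by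
  have h1 : 0 < ‖x - y‖ := norm_pos_iff.2 (sub_ne_zero.2 hxy)
  have h2 := norm_pos hx
  have h3 := norm_pos hy
  have h4 := norm_add_sq_ge hx hy
  have h5 : 0 < ‖x + y‖ ^ 2 := by nlinarith [pow_pos h2 2, pow_pos h3 2]
  have h6 : 0 < ‖x ^ 2 - y ^ 2‖ ^ 2 := by
    rw [norm_sq_sub, mul_pow]; positivity
  have h7 : tt x y * ‖x ^ 2 - y ^ 2‖ ^ 2 = 4 * (x ^ 2).im * (y ^ 2).im := by
    unfold tt; exact div_mul_cancel₀ _ h6.ne'
  rw [← h7]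
  apply mul_le_mul_of_nonneg_left _ (tt_nonneg hx hy)
  rw [norm_sq_sub, mul_pow]
  apply mul_le_mul_of_nonneg_left h4 (by positivity)

/-- identity `|X - conj Y|^2 = |X-Y|^2 + 4 Im X Im Y` -/
lemma conj_id (X Y : ℂ) :
    ‖X - (starRingEnd ℂ) Y‖ ^ 2 = ‖X - Y‖ ^ 2 + 4 * X.im * Y.im := by
  rw [nsq, nsq]
  simp only [Complex.sub_re, Complex.sub_im, Complex.conj_re, Complex.conj_im]
  ring

lemma one_add_tt {x y : ℂ} (h : x ^ 2 - y ^ 2 ≠ 0) :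
    1 + tt x y = ‖x ^ 2 - (starRingEnd ℂ) (y ^ 2)‖ ^ 2 / ‖x ^ 2 - y ^ 2‖ ^ 2 := by
  rw [conj_id]
  unfold tt
  have h1 : 0 < ‖x ^ 2 - y ^ 2‖ := norm_pos_iff.2 h
  field_simp

lemma sq_sub_ne {x y : ℂ} (hx : x ∈ Qd) (hy : y ∈ Qd) (hxy : x ≠ y) : x ^ 2 - y ^ 2 ≠ 0 := by
  have h1 : x ^ 2 - y ^ 2 = (x - y) * (x + y) := by ring
  rw [h1]
  refine mul_ne_zero (sub_ne_zero.2 hxy) ?_
  intro h
  have h2 := congrArg Complex.re h
  simp only [Complex.add_re, Complex.zero_re] at h2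
  linarith [hx.1, hy.1]

lemma bound_i {R : ℝ} {x y : ℂ} (hx : x ∈ Qd) (hy : y ∈ Qd) (hxR : ‖x‖ ≤ R) (hyR : ‖y‖ ≤ R)
    (hxy : x ≠ y) : GQ x y ≤ (1 / (2 * Real.pi)) * Real.log (4 * R / ‖x - y‖) := by
  have h1 : 0 < ‖x - y‖ := norm_pos_iff.2 (sub_ne_zero.2 hxy)
  have h2 := norm_pos hx
  have h3 := norm_pos hy
  have hR : 0 < R := h2.trans_le hxR
  have h4 := norm_add_sq_ge hx hy
  have hne := sq_sub_ne hx hy hxy
  have hA : 1 + tt x y ≤ (4 * R / ‖x - y‖) ^ 2 := by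
    rw [one_add_tt hne]
    have h5 : ‖x ^ 2 - (starRingEnd ℂ) (y ^ 2)‖ ≤ ‖x‖ ^ 2 + ‖y‖ ^ 2 := by
      refine (norm_sub_le _ _).trans (le_of_eq ?_)
      rw [Complex.norm_conj, norm_pow, norm_pow]
    have h6 : 0 < ‖x ^ 2 - y ^ 2‖ := norm_pos_iff.2 hne
    rw [div_pow, div_le_div_iff₀ (by positivity) (by positivity), norm_sq_sub]
    have h7 : ‖x ^ 2 - (starRingEnd ℂ) (y ^ 2)‖ ^ 2 ≤ (‖x‖ ^ 2 + ‖y‖ ^ 2) ^ 2 :=
      pow_le_pow_left₀ (norm_nonneg _) h5 2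
    have h8 : ‖x‖ ^ 2 ≤ R ^ 2 := pow_le_pow_left₀ h2.le hxR 2
    have h9 : ‖y‖ ^ 2 ≤ R ^ 2 := pow_le_pow_left₀ h3.le hyR 2
    have hs : 0 ≤ ‖x‖ ^ 2 + ‖y‖ ^ 2 := by positivity
    have h10 : (‖x‖ ^ 2 + ‖y‖ ^ 2) ^ 2 ≤ (4 * R) ^ 2 * ‖x + y‖ ^ 2 := by
      have e1 : (‖x‖ ^ 2 + ‖y‖ ^ 2) ^ 2 ≤ (2 * R ^ 2) * (‖x‖ ^ 2 + ‖y‖ ^ 2) := by
        rw [sq (‖x‖ ^ 2 + ‖y‖ ^ 2)]
        exact mul_le_mul_of_nonneg_right (by linarith) hs
      have e2 : (2 * R ^ 2) * (‖x‖ ^ 2 + ‖y‖ ^ 2) ≤ (4 * R) ^ 2 * ‖x + y‖ ^ 2 := by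
        apply mul_le_mul _ h4 hs (by positivity)
        nlinarith [sq_nonneg R]
      exact e1.trans e2
    calc ‖x ^ 2 - (starRingEnd ℂ) (y ^ 2)‖ ^ 2 * ‖x - y‖ ^ 2
        ≤ ((4 * R) ^ 2 * ‖x + y‖ ^ 2) * ‖x - y‖ ^ 2 :=
          mul_le_mul_of_nonneg_right (h7.trans h10) (by positivity)
      _ = (4 * R) ^ 2 * (‖x - y‖ * ‖x + y‖) ^ 2 := by ring
  refine (GQ_le hx hy hA).trans (le_of_eq ?_)
  rw [Real.log_pow]
  have hp := Real.pi_pos.ne'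
  push_cast
  field_simp
  norm_num

lemma min_le {x y : ℂ} (hx : x ∈ Qd) (hy : y ∈ Qd) : psi y ≤ 2 * psi x + ‖x - y‖ := by
  have h2 := norm_pos hx
  have h3 := norm_pos hy
  have hre : |x.re - y.re| ≤ ‖x - y‖ := by
    have := Complex.abs_re_le_norm (x - y); rwa [Complex.sub_re] at this
  have him : |x.im - y.im| ≤ ‖x - y‖ := by
    have := Complex.abs_im_le_norm (x - y); rwa [Complex.sub_im] at this
  have hyre : psi y ≤ y.re := by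
    unfold psi
    rw [div_le_iff₀ h3]
    have := Complex.abs_im_le_norm y
    exact mul_le_mul_of_nonneg_left ((le_abs_self _).trans this) hy.1.le
  have hyim : psi y ≤ y.im := by
    unfold psi
    rw [div_le_iff₀ h3, mul_comm y.re]
    have := Complex.abs_re_le_norm y
    exact mul_le_mul_of_nonneg_left ((le_abs_self _).trans this) hy.2.le
  have hx1 := hx.1
  have hx2 := hx.2
  rcases le_total x.re x.im with h | h
  · have h4 : ‖x‖ ≤ 2 * x.im := by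
      apply le_of_sq_le_sq _ (by linarith)
      rw [nsq]; nlinarith
    have h5 : x.re ≤ 2 * psi x := by
      unfold psi
      rw [mul_div_assoc', le_div_iff₀ h2]
      nlinarith
    have h6 := abs_le.1 hre
    linarith
  · have h4 : ‖x‖ ≤ 2 * x.re := by
      apply le_of_sq_le_sq _ (by linarith)
      rw [nsq]; nlinarith
    have h5 : x.im ≤ 2 * psi x := by
      unfold psi
      rw [mul_div_assoc', le_div_iff₀ h2]
      nlinarith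
    have h6 := abs_le.1 him
    linarith

lemma bound_ii {x y : ℂ} (hx : x ∈ Qd) (hy : y ∈ Qd) (hxy : x ≠ y) :
    GQ x y ≤ (2 / Real.pi) * (psi x / ‖x - y‖) := by
  have h1 : 0 < ‖x - y‖ := norm_pos_iff.2 (sub_ne_zero.2 hxy)
  have h2 := norm_pos hx
  have h3 := norm_pos hy
  have hpx := psi_pos hx
  have hpy := psi_pos hy
  set q := psi x / ‖x - y‖ with hq
  have hq0 : 0 < q := div_pos hpx h1
  have hA : 1 + tt x y ≤ (1 + 4 * q) ^ 2 := by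
    have hk := key hx hy hxy
    rw [im_psi hx, im_psi hy] at hk
    have h4 : tt x y * ‖x - y‖ ^ 2 ≤ 8 * psi x * psi y := by
      have h5 : 2 * (‖x‖ * ‖y‖) ≤ ‖x‖ ^ 2 + ‖y‖ ^ 2 := by nlinarith [sq_nonneg (‖x‖ - ‖y‖)]
      have h6 : tt x y * ‖x - y‖ ^ 2 * (2 * (‖x‖ * ‖y‖)) ≤ (8 * psi x * psi y) * (2 * (‖x‖ * ‖y‖)) := by
        have h7 : tt x y * ‖x - y‖ ^ 2 * (2 * (‖x‖ * ‖y‖)) ≤
            tt x y * ‖x - y‖ ^ 2 * (‖x‖ ^ 2 + ‖y‖ ^ 2) :=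
          mul_le_mul_of_nonneg_left h5 (mul_nonneg (tt_nonneg hx hy) (by positivity))
        nlinarith
      exact le_of_mul_le_mul_right h6 (by positivity)
    have h5 := min_le hx hy
    have h6 : tt x y ≤ 8 * q * (2 * q + 1) := by
      have h7 : psi x = q * ‖x - y‖ := by rw [hq]; field_simp
      have h8 : tt x y * ‖x - y‖ ^ 2 ≤ (8 * q * (2 * q + 1)) * ‖x - y‖ ^ 2 := by
        have h9 : 8 * psi x * psi y ≤ 8 * psi x * (2 * psi x + ‖x - y‖) :=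
          mul_le_mul_of_nonneg_left h5 (by positivity)
        have h10 : 8 * psi x * (2 * psi x + ‖x - y‖) = (8 * q * (2 * q + 1)) * ‖x - y‖ ^ 2 := by
          rw [h7]; ring
        linarith
      exact le_of_mul_le_mul_right h8 (by positivity)
    nlinarith
  refine (GQ_le hx hy hA).trans ?_
  rw [Real.log_pow]
  have hl : Real.log (1 + 4 * q) ≤ 4 * q := by
    have := Real.log_le_sub_one_of_pos (show 0 < 1 + 4 * q by linarith)
    linarith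
  have hp := Real.pi_pos
  have e : (2 / Real.pi) * q = 1 / (4 * Real.pi) * (2 * (4 * q)) := by
    field_simp
    try ring
  rw [e]
  apply mul_le_mul_of_nonneg_left _ (by positivity)
  push_cast
  linarith

lemma bound_iii {x y : ℂ} (hx : x ∈ Qd) (hy : y ∈ Qd) (h : 2 * ‖x‖ ≤ ‖y‖) :
    GQ x y ≤ 2 * ‖x‖ * psi x / ‖y‖ ^ 2 := by
  have h2 := norm_pos hx
  have h3 := norm_pos hy
  have hpx := psi_pos hx
  have hyi : (y ^ 2).im ≤ ‖y‖ ^ 2 := by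
    have := Complex.abs_im_le_norm (y ^ 2)
    rw [norm_pow] at this
    exact (le_abs_self _).trans this
  have hd : 3 / 4 * ‖y‖ ^ 2 ≤ ‖x ^ 2 - y ^ 2‖ := by
    have h4 := norm_sub_norm_le (y ^ 2) (x ^ 2)
    rw [norm_pow, norm_pow, norm_sub_rev] at h4
    have h5 : ‖x‖ ^ 2 ≤ ‖y‖ ^ 2 / 4 := by nlinarith
    linarith
  have hd0 : 0 < ‖x ^ 2 - y ^ 2‖ := lt_of_lt_of_le (by positivity) hd
  have ht : tt x y ≤ (128 / 9) * (‖x‖ * psi x) / ‖y‖ ^ 2 := by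
    unfold tt
    have h6 : (9 / 16) * ‖y‖ ^ 4 ≤ ‖x ^ 2 - y ^ 2‖ ^ 2 := by
      have := pow_le_pow_left₀ (by positivity) hd 2
      nlinarith
    rw [div_le_div_iff₀ (by positivity) (by positivity), im_psi hx]
    have h7 : 4 * (2 * ‖x‖ * psi x) * (y ^ 2).im * ‖y‖ ^ 2 ≤
        4 * (2 * ‖x‖ * psi x) * ‖y‖ ^ 2 * ‖y‖ ^ 2 := by
      apply mul_le_mul_of_nonneg_right _ (by positivity)
      exact mul_le_mul_of_nonneg_left hyi (by positivity)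
    have h8 : 128 / 9 * (‖x‖ * psi x) * ((9 / 16) * ‖y‖ ^ 4) ≤
        128 / 9 * (‖x‖ * psi x) * ‖x ^ 2 - y ^ 2‖ ^ 2 :=
      mul_le_mul_of_nonneg_left h6 (by positivity)
    nlinarith
  rw [GQ_eq]
  have hp := Real.pi_gt_three
  have hl : Real.log (1 + tt x y) ≤ tt x y := by
    have := Real.log_le_sub_one_of_pos (show 0 < 1 + tt x y by linarith [tt_nonneg hx hy])
    linarith
  have hl2 : Real.log (1 + tt x y) ≤ 128 / 9 * (‖x‖ * psi x) / ‖y‖ ^ 2 := hl.trans ht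
  have h9 : 1 / (4 * Real.pi) * Real.log (1 + tt x y) ≤
      1 / (4 * Real.pi) * (128 / 9 * (‖x‖ * psi x) / ‖y‖ ^ 2) :=
    mul_le_mul_of_nonneg_left hl2 (by positivity)
  refine h9.trans ?_
  have h10 : 1 / (4 * Real.pi) ≤ 1 / 12 := by
    apply one_div_le_one_div_of_le (by norm_num); linarith
  have h11 : 0 ≤ 128 / 9 * (‖x‖ * psi x) / ‖y‖ ^ 2 := by positivity
  have h12 : 1 / (4 * Real.pi) * (128 / 9 * (‖x‖ * psi x) / ‖y‖ ^ 2) ≤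
      1 / 12 * (128 / 9 * (‖x‖ * psi x) / ‖y‖ ^ 2) := mul_le_mul_of_nonneg_right h10 h11
  refine h12.trans ?_
  have e : 1 / 12 * (128 / 9 * (‖x‖ * psi x) / ‖y‖ ^ 2) =
      (32 / 27) * (‖x‖ * psi x / ‖y‖ ^ 2) := by ring
  have e2 : 2 * ‖x‖ * psi x / ‖y‖ ^ 2 = 2 * (‖x‖ * psi x / ‖y‖ ^ 2) := by ring
  rw [e, e2]
  apply mul_le_mul_of_nonneg_right (by norm_num) (by positivity)

lemma le_GQ (hC : ST_CMP) (D : Set ℂ) (g : ℂ → ℂ → ℝ) (hD : IsOpen D) (hDQ : D ⊆ Qd)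
    (hg : IsGreen D g) {x y : ℂ} (hx : x ∈ D) (hy : y ∈ D) : g x y ≤ GQ x y := by
  by_cases hxy : x = y
  · subst hxy
    rw [hg.diag]
    exact GQ_nonneg (hDQ hx) (hDQ hx)
  have hyQ := hDQ hy
  have hp := Real.pi_pos
  have hcne : ∀ z ∈ D, z ^ 2 - (starRingEnd ℂ) (y ^ 2) ≠ 0 := by
    intro z hz h
    have h1 := congrArg Complex.im h
    simp only [Complex.sub_im, Complex.conj_im, Complex.zero_im] at h1
    have := sq_im_pos (hDQ hz)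
    have := sq_im_pos hyQ
    linarith
  have hane : ∀ z ∈ D, z + y ≠ 0 := by
    intro z hz h
    have h1 := congrArg Complex.re h
    simp only [Complex.add_re, Complex.zero_re] at h1
    have := (hDQ hz).1
    have := hyQ.1
    linarith
  refine hC D g y (fun z => GQ z y)
    (fun z => (1 / (2 * Real.pi)) • (Real.log ‖z ^ 2 - (starRingEnd ℂ) (y ^ 2)‖ -
      Real.log ‖z + y‖)) hD hg hy ?_ ?_ ?_ x hx hxy
  · intro z hz
    apply HarmonicAt.const_smul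
    apply HarmonicAt.sub
    · exact AnalyticAt.harmonicAt_log_norm (f := fun z => z ^ 2 - (starRingEnd ℂ) (y ^ 2))
        (by fun_prop) (hcne z hz)
    · exact AnalyticAt.harmonicAt_log_norm (f := fun z => z + y) (by fun_prop) (hane z hz)
  · intro z hz hzy
    have hzQ := hDQ hz
    have h1 : 0 < ‖z - y‖ := norm_pos_iff.2 (sub_ne_zero.2 hzy)
    have h2 : 0 < ‖z + y‖ := norm_pos_iff.2 (hane z hz)
    have h3 : 0 < ‖z ^ 2 - (starRingEnd ℂ) (y ^ 2)‖ := norm_pos_iff.2 (hcne z hz)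
    rw [GQ_eq, one_add_tt (sq_sub_ne hzQ hyQ hzy), norm_sq_sub, Real.log_div (by positivity)
      (by positivity), Real.log_pow, Real.log_pow, Real.log_mul h1.ne' h2.ne', smul_eq_mul]
    push_cast
    field_simp
    ring
  · intro z hz _
    exact GQ_nonneg (hDQ hz) hyQ

end GQ1

theorem st_GQ1 (hC : ST_CMP) : ST_GQ1 := by
  refine ⟨fun x hx y hy => ⟨GQ1.GQ_nonneg hx hy, GQ1.GQ_symm x y⟩,
    fun R x hx y hy h1 h2 h3 => GQ1.bound_i hx hy h1 h2 h3,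
    fun x hx y hy h => GQ1.bound_ii hx hy h,
    fun x hx y hy h => GQ1.bound_iii hx hy h,
    fun D g hD hDQ hg x hx y hy => GQ1.le_GQ hC D g hD hDQ hg hx hy⟩

end LEP
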