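import Pool.Agent.Helper14.LE.Stmts

open MeasureTheory Set Filter Topology InnerProductSpace

noncomputable section

namespace LEP
namespace S57

lemma mm_ge (i : Fin 2) : 3 ≤ mm i := by fin_cases i <;> simp [mm]
lemma mm_le (i : Fin 2) : mm i ≤ 9 := by fin_cases i <;> simp [mm]

lemma norm_pw (i : Fin 2) (x : ℂ) : ‖pw i x‖ = ‖x‖ ^ mm i := by
  unfold pw
  rw [norm_pow, norm_mul]
  have : ‖Complex.exp (-(al i : ℂ) * Complex.I)‖ = 1 := by
    have h : (-(al i : ℂ) * Complex.I) = ((-al i : ℝ) : ℂ) * Complex.I := by push_cast; ring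
    rw [h, Complex.norm_exp_ofReal_mul_I]
  rw [this, one_mul]

lemma pw_refl (i : Fin 2) (ρ : ℝ) (y : ℂ) :
    pw i ((ρ : ℂ) ^ 2 / (starRingEnd ℂ) y) = (ρ : ℂ) ^ (2 * mm i) / (starRingEnd ℂ) (pw i y) := by
  unfold pw
  rw [map_pow, map_mul, ← Complex.exp_conj, map_mul, map_neg, Complex.conj_ofReal, Complex.conj_I,
    neg_mul_neg, pow_mul, ← div_pow]
  congr 1
  rw [show (-(al i : ℂ) * Complex.I) = -((al i : ℂ) * Complex.I) by ring, Complex.exp_neg]
  have := Complex.exp_ne_zero ((al i : ℂ) * Complex.I)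
  by_cases hy : (starRingEnd ℂ) y = 0
  · rw [hy]; simp
  · field_simp

lemma im_div_conj (r : ℝ) (Y : ℂ) :
    ((r : ℂ) / (starRingEnd ℂ) Y).im = r * Y.im / ‖Y‖ ^ 2 := by
  rw [Complex.div_im, Complex.ofReal_re, Complex.ofReal_im, Complex.conj_re, Complex.conj_im,
    Complex.normSq_conj, Complex.normSq_eq_norm_sq]
  ring

/-- upper bound of the mirror term -/
lemma mirror (i : Fin 2) {ρ : ℝ} {x y : ℂ} (hx : 0 < (pw i x).im) (hy : 0 < (pw i y).im)
    (h : 8 * (‖x‖ * ‖y‖) ≤ ρ ^ 2) (hρ : 0 < ρ) :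
    GA i x ((ρ : ℂ) ^ 2 / (starRingEnd ℂ) y) ≤
      (1 / (4 * Real.pi)) * (5 * (pw i x).im * (pw i y).im / ρ ^ (2 * mm i)) := by
  have hm := mm_ge i
  have hp := Real.pi_pos
  unfold GA
  rw [pw_refl]
  have e1 : ((ρ : ℂ) ^ (2 * mm i)) = ((ρ ^ (2 * mm i) : ℝ) : ℂ) := by push_cast; rfl
  rw [e1]
  set P : ℝ := ρ ^ (2 * mm i) with hP
  have hP0 : 0 < P := by positivity
  set X := pw i x with hX
  set Y := pw i y with hY
  have hXn : ‖X‖ = ‖x‖ ^ mm i := norm_pw i x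
  have hYn : ‖Y‖ = ‖y‖ ^ mm i := norm_pw i y
  have hY0 : 0 < ‖Y‖ := by
    rw [norm_pos_iff]; rintro h0; rw [h0] at hy; simp at hy
  have hX0 : 0 < ‖X‖ := by
    rw [norm_pos_iff]; rintro h0; rw [h0] at hx; simp at hx
  have hXY : 512 * (‖X‖ * ‖Y‖) ≤ P := by
    rw [hXn, hYn, ← mul_pow, hP, pow_mul]
    have h1 : (8 * (‖x‖ * ‖y‖)) ^ mm i ≤ (ρ ^ 2) ^ mm i :=
      pow_le_pow_left₀ (by positivity) h _
    rw [mul_pow] at h1
    have h2 : (8 : ℝ) ^ 3 ≤ 8 ^ mm i := pow_le_pow_right₀ (by norm_num) hm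
    have h3 : 512 * (‖x‖ * ‖y‖) ^ mm i ≤ 8 ^ mm i * (‖x‖ * ‖y‖) ^ mm i :=
      mul_le_mul_of_nonneg_right (by linarith) (by positivity)
    exact h3.trans h1
  have hn : ‖((P : ℂ) / (starRingEnd ℂ) Y)‖ = P / ‖Y‖ := by
    rw [norm_div, Complex.norm_conj, Complex.norm_real, Real.norm_of_nonneg hP0.le]
  have hge : P / ‖Y‖ * (511 / 512) ≤ ‖X - (P : ℂ) / (starRingEnd ℂ) Y‖ := by
    have h4 := norm_sub_norm_le ((P : ℂ) / (starRingEnd ℂ) Y) X
    rw [hn, norm_sub_rev] at h4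
    have h5 : ‖X‖ ≤ P / ‖Y‖ / 512 := by
      rw [le_div_iff₀ (by norm_num), le_div_iff₀ hY0]
      linarith
    linarith
  rw [im_div_conj]
  have hD : 0 < ‖X - (P : ℂ) / (starRingEnd ℂ) Y‖ := lt_of_lt_of_le (by positivity) hge
  have ht : 4 * X.im * (P * Y.im / ‖Y‖ ^ 2) / ‖X - (P : ℂ) / (starRingEnd ℂ) Y‖ ^ 2 ≤
      5 * X.im * Y.im / P := by
    rw [div_le_div_iff₀ (by positivity) hP0]
    have h6 : (P / ‖Y‖ * (511 / 512)) ^ 2 ≤ ‖X - (P : ℂ) / (starRingEnd ℂ) Y‖ ^ 2 :=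
      pow_le_pow_left₀ (by positivity) hge 2
    have h7 : 4 * X.im * (P * Y.im / ‖Y‖ ^ 2) * P ≤
        5 * X.im * Y.im * (P / ‖Y‖ * (511 / 512)) ^ 2 := by
      have e2 : 4 * X.im * (P * Y.im / ‖Y‖ ^ 2) * P = 4 * (X.im * Y.im * (P / ‖Y‖) ^ 2) := by
        ring
      have e3 : 5 * X.im * Y.im * (P / ‖Y‖ * (511 / 512)) ^ 2 =
          5 * (511 / 512) ^ 2 * (X.im * Y.im * (P / ‖Y‖) ^ 2) := by ring
      rw [e2, e3]
      apply mul_le_mul_of_nonneg_right (by norm_num) (by positivity)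
    exact h7.trans (mul_le_mul_of_nonneg_left h6 (by positivity))
  apply mul_le_mul_of_nonneg_left _ (by positivity)
  have h8 : 0 ≤ 4 * X.im * (P * Y.im / ‖Y‖ ^ 2) / ‖X - (P : ℂ) / (starRingEnd ℂ) Y‖ ^ 2 := by
    positivity
  have := Real.log_le_sub_one_of_pos (show 0 < 1 + 4 * X.im * (P * Y.im / ‖Y‖ ^ 2) /
    ‖X - (P : ℂ) / (starRingEnd ℂ) Y‖ ^ 2 by linarith)
  linarith

end S57

open S57 in
theorem st_S5 (h0 : ST_SEC0) : ST_S5 := by
  refine ⟨1 / (4 * Real.pi), by have := Real.pi_pos; positivity, ?_⟩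
  intro i b hb hb8 x hx hx16 R hR
  have hm := mm_ge i
  have hp := Real.pi_pos
  have hX := (h0.2.1 i x hx).1
  have hB := (h0.2.1 i b hb).1
  have hx0 : 0 < ‖x‖ := by linarith
  have hR0 : 0 < R := by linarith
  have hmir := mirror i hX hB (ρ := R) (by rw [hb8]; nlinarith) hR0
  have hXn : ‖pw i x‖ = ‖x‖ ^ mm i := norm_pw i x
  have hBn : ‖pw i b‖ = 8 ^ mm i := by rw [norm_pw, hb8]
  unfold GAR
  set X := pw i x with hXd
  set B := pw i b with hBd
  have hX0 : 0 < ‖X‖ := by rw [hXn]; positivity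
  have hB0 : 0 < ‖B‖ := by rw [hBn]; positivity
  have hBX : 8 * ‖B‖ ≤ ‖X‖ := by
    rw [hXn, hBn]
    have h1 : (16 : ℝ) ^ mm i ≤ ‖x‖ ^ mm i := pow_le_pow_left₀ (by norm_num) hx16 _
    have h2 : (16 : ℝ) ^ mm i = 2 ^ mm i * 8 ^ mm i := by rw [← mul_pow]; norm_num
    have h3 : (2 : ℝ) ^ 3 ≤ 2 ^ mm i := pow_le_pow_right₀ (by norm_num) hm
    have h4 : 8 * (8 : ℝ) ^ mm i ≤ 2 ^ mm i * 8 ^ mm i :=
      mul_le_mul_of_nonneg_right (by linarith) (by positivity)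
    linarith
  have hle : ‖X - B‖ ≤ 9 / 8 * ‖X‖ := (norm_sub_le _ _).trans (by linarith)
  have hge : 7 / 8 * ‖X‖ ≤ ‖X - B‖ := by
    have := norm_sub_norm_le X B; linarith
  have hD : 0 < ‖X - B‖ := lt_of_lt_of_le (by positivity) hge
  have hXi : X.im ≤ ‖X‖ := (le_abs_self _).trans (Complex.abs_im_le_norm X)
  have hBi : B.im ≤ ‖B‖ := (le_abs_self _).trans (Complex.abs_im_le_norm B)
  set t : ℝ := 4 * X.im * B.im / ‖X - B‖ ^ 2 with ht
  have ht0 : 0 ≤ t := by positivity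
  have ht1 : t ≤ 2 / 3 := by
    rw [ht, div_le_iff₀ (by positivity)]
    have h5 : (7 / 8 * ‖X‖) ^ 2 ≤ ‖X - B‖ ^ 2 := pow_le_pow_left₀ (by positivity) hge 2
    have h6 : X.im * B.im ≤ ‖X‖ * (‖X‖ / 8) :=
      mul_le_mul hXi (by linarith) hB.le hX0.le
    nlinarith
  have ht2 : 3 * X.im * B.im / ‖x‖ ^ (2 * mm i) ≤ t := by
    have e : ‖x‖ ^ (2 * mm i) = ‖X‖ ^ 2 := by rw [hXn, ← pow_mul, mul_comm]
    rw [e, ht, div_le_div_iff₀ (by positivity) (by positivity)]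
    have h5 : ‖X - B‖ ^ 2 ≤ (9 / 8 * ‖X‖) ^ 2 := pow_le_pow_left₀ (by positivity) hle 2
    have h6 : 3 * X.im * B.im * ‖X - B‖ ^ 2 ≤ 3 * X.im * B.im * (9 / 8 * ‖X‖) ^ 2 :=
      mul_le_mul_of_nonneg_left h5 (by positivity)
    have h7 : 3 * X.im * B.im * (9 / 8 * ‖X‖) ^ 2 = (243 / 64) * (X.im * B.im * ‖X‖ ^ 2) := by ring
    have h8 : 4 * X.im * B.im * ‖X‖ ^ 2 = 4 * (X.im * B.im * ‖X‖ ^ 2) := by ring
    rw [h8]
    rw [h7] at h6
    refine h6.trans ?_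
    apply mul_le_mul_of_nonneg_right (by norm_num) (by positivity)
  have hlog : 3 / 5 * t ≤ Real.log (1 + t) := by
    have h9 := Real.one_sub_inv_le_log_of_pos (show 0 < 1 + t by linarith)
    have h10 : 3 / 5 * t ≤ 1 - (1 + t)⁻¹ := by
      rw [le_sub_iff_add_le, ← le_sub_iff_add_le', inv_le_iff_one_le_mul₀ (by linarith)]
      nlinarith
    linarith
  have hGA : GA i x b = 1 / (4 * Real.pi) * Real.log (1 + t) := rfl
  rw [hGA]
  have hR2 : 5 * X.im * B.im / R ^ (2 * mm i) ≤ (1 / 800) * (X.im * B.im / ‖x‖ ^ (2 * mm i)) := by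
    have h11 : (4 * ‖x‖) ^ (2 * mm i) ≤ R ^ (2 * mm i) := pow_le_pow_left₀ (by positivity) hR _
    have h12 : (4 : ℝ) ^ 6 ≤ 4 ^ (2 * mm i) := pow_le_pow_right₀ (by norm_num) (by omega)
    have h13 : 4000 * ‖x‖ ^ (2 * mm i) ≤ R ^ (2 * mm i) := by
      rw [mul_pow] at h11
      have : 4000 * ‖x‖ ^ (2 * mm i) ≤ 4 ^ (2 * mm i) * ‖x‖ ^ (2 * mm i) :=
        mul_le_mul_of_nonneg_right (by linarith) (by positivity)
      linarith
    rw [mul_div_assoc', div_le_div_iff₀ (by positivity) (by positivity)]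
    have h14 : X.im * B.im * (4000 * ‖x‖ ^ (2 * mm i)) ≤ X.im * B.im * R ^ (2 * mm i) :=
      mul_le_mul_of_nonneg_left h13 (by positivity)
    nlinarith
  have e5 : 1 / (4 * Real.pi) * X.im * B.im / ‖x‖ ^ (2 * mm i) =
      1 / (4 * Real.pi) * (X.im * B.im / ‖x‖ ^ (2 * mm i)) := by ring
  rw [e5]
  have e6 : 3 * X.im * B.im / ‖x‖ ^ (2 * mm i) = 3 * (X.im * B.im / ‖x‖ ^ (2 * mm i)) := by ring
  rw [e6] at ht2
  have hpi : 0 < 1 / (4 * Real.pi) := by positivity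
  have hq0 : 0 ≤ X.im * B.im / ‖x‖ ^ (2 * mm i) := by positivity
  set q := X.im * B.im / ‖x‖ ^ (2 * mm i) with hq
  have hfin : q ≤ Real.log (1 + t) - 5 * X.im * B.im / R ^ (2 * mm i) := by
    have : 9 / 5 * q ≤ Real.log (1 + t) := by linarith
    linarith
  have := mul_le_mul_of_nonneg_left hfin hpi.le
  rw [mul_sub] at this
  linarith

namespace S57

/-- scale factor `1+w` -/
lemma pow_sub_one_le {w : ℂ} {c : ℝ} (hw : ‖w‖ ≤ c) (hc : c ≤ 1 / 2) (m : ℕ) (hm : m ≤ 9) :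
    ‖(1 + w) ^ m - 1‖ ≤ 400 * c := by
  have hc0 : 0 ≤ c := (norm_nonneg w).trans hw
  have h1 : (1 + w) ^ m - 1 = w * ∑ j ∈ Finset.range m, (1 + w) ^ j := by
    have := mul_geom_sum (1 + w) m
    rw [add_sub_cancel_left] at this
    exact this.symm
  rw [h1, norm_mul]
  have h2 : ‖∑ j ∈ Finset.range m, (1 + w) ^ j‖ ≤ 400 := by
    refine (norm_sum_le _ _).trans ?_
    have h3 : ∀ j ∈ Finset.range m, ‖(1 + w) ^ j‖ ≤ (3 / 2) ^ 8 := by
      intro j hj
      rw [Finset.mem_range] at hj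
      rw [norm_pow]
      have h4 : ‖1 + w‖ ≤ 3 / 2 := by
        refine (norm_add_le _ _).trans ?_
        rw [norm_one]; linarith
      refine (pow_le_pow_left₀ (norm_nonneg _) h4 j).trans ?_
      exact pow_le_pow_right₀ (by norm_num) (by omega)
    refine (Finset.sum_le_sum h3).trans ?_
    rw [Finset.sum_const, Finset.card_range, nsmul_eq_mul]
    have : (m : ℝ) ≤ 9 := by exact_mod_cast hm
    norm_num
    linarith
  have h5 : ‖w‖ * ‖∑ j ∈ Finset.range m, (1 + w) ^ j‖ ≤ c * 400 :=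
    mul_le_mul hw h2 (norm_nonneg _) hc0
  linarith

lemma pow_ne_one {w : ℂ} (hw0 : w ≠ 0) {c : ℝ} (hw : ‖w‖ ≤ c) (hc : c ≤ 1 / 1000) (m : ℕ)
    (hm1 : 1 ≤ m) (hm : m ≤ 9) : (1 + w) ^ m ≠ 1 := by
  intro h
  have h1 : w * ∑ j ∈ Finset.range m, (1 + w) ^ j = 0 := by
    have := mul_geom_sum (1 + w) m
    rw [add_sub_cancel_left] at this
    rw [this, h, sub_self]
  rcases mul_eq_zero.1 h1 with h2 | h2
  · exact hw0 h2
  have h3 : ‖∑ j ∈ Finset.range m, ((1 + w) ^ j - 1)‖ ≤ m * (400 * c) := by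
    refine (norm_sum_le _ _).trans ?_
    have : ∀ j ∈ Finset.range m, ‖(1 + w) ^ j - 1‖ ≤ 400 * c := by
      intro j hj
      rw [Finset.mem_range] at hj
      exact pow_sub_one_le hw (by linarith) j (by omega)
    refine (Finset.sum_le_sum this).trans ?_
    rw [Finset.sum_const, Finset.card_range, nsmul_eq_mul]
  rw [Finset.sum_sub_distrib, h2, zero_sub, norm_neg, Finset.sum_const, Finset.card_range,
    nsmul_eq_mul, mul_one, Complex.norm_natCast] at h3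
  have hm' : (0 : ℝ) < m := by exact_mod_cast hm1
  nlinarith

lemma pw_mul (i : Fin 2) (x u : ℂ) : pw i (x * u) = pw i x * u ^ mm i := by
  unfold pw
  rw [← mul_assoc, mul_pow]

lemma be_sub (i : Fin 2) : be i - al i = Real.pi / mm i := by unfold be; ring

lemma al_pos (i : Fin 2) : 0 < al i := by
  have := Real.pi_pos
  fin_cases i <;> simp [al, th0] <;> positivity

lemma be_lt (i : Fin 2) : be i < Real.pi := by
  have := Real.pi_pos
  fin_cases i <;> simp [be, al, th0, mm] <;> linarith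

/-- min of the sine on a compact interval -/
lemma sin_min (i : Fin 2) (a b : ℝ) (ha : al i < a) (hb : b < be i) :
    ∃ s : ℝ, 0 < s ∧ ∀ t ∈ Icc a b, s ≤ Real.sin (mm i * (t - al i)) := by
  have hm := mm_ge i
  have hmR : (0 : ℝ) < mm i := by exact_mod_cast (by omega : 0 < mm i)
  rcases (Icc a b).eq_empty_or_nonempty with h | h
  · exact ⟨1, one_pos, fun t ht => by rw [h] at ht; exact absurd ht (Set.notMem_empty t)⟩
  obtain ⟨t0, ht0, hmin⟩ := isCompact_Icc.exists_isMinOn h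
    (f := fun t => Real.sin (mm i * (t - al i))) (by fun_prop)
  refine ⟨_, ?_, fun t ht => hmin ht⟩
  have h1 : 0 < t0 - al i := by linarith [ht0.1]
  have h2 : t0 - al i < Real.pi / mm i := by rw [← be_sub]; linarith [ht0.2]
  apply Real.sin_pos_of_pos_of_lt_pi
  · positivity
  · rw [lt_div_iff₀ hmR] at h2; linarith

lemma cc {c : ℝ} (hc : c ≤ 1 / 1000) : c ≤ 1 / (4 * Real.pi) * (49 / 100) := by
  have h1 := Real.pi_lt_four
  have h2 := Real.pi_pos
  have h3 : 1 / 16 ≤ 1 / (4 * Real.pi) := one_div_le_one_div_of_le (by positivity) (by linarith)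
  linarith

lemma small {xn yn R X Y : ℝ} {m : ℕ} (hm : 3 ≤ m) (hx : 0 ≤ xn) (hy : 0 ≤ yn) (hR : 0 < R)
    (hY : 0 ≤ Y) (h : 8 * (xn * yn) ≤ R ^ 2) (hX : X ≤ xn ^ m) (hY' : Y ≤ yn ^ m) :
    5 * X * Y / R ^ (2 * m) ≤ 1 / 100 := by
  rw [div_le_iff₀ (by positivity)]
  have h14 : X * Y ≤ (xn * yn) ^ m := by
    rw [mul_pow]
    exact mul_le_mul hX hY' hY (by positivity)
  have h15 : (8 * (xn * yn)) ^ m ≤ (R ^ 2) ^ m := pow_le_pow_left₀ (by positivity) h _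
  rw [mul_pow, ← pow_mul] at h15
  have h2 : (8 : ℝ) ^ 3 ≤ 8 ^ m := pow_le_pow_right₀ (by norm_num) hm
  have h3 : 512 * (xn * yn) ^ m ≤ 8 ^ m * (xn * yn) ^ m :=
    mul_le_mul_of_nonneg_right (by linarith) (by positivity)
  have h4 : 0 ≤ R ^ (2 * m) := by positivity
  linarith

lemma big {s c T X Y D : ℝ} (hs : 0 < s) (hc : 0 < c) (hT : 0 < T) (hcs : c ≤ s / 40000)
    (hX : s * T ≤ X) (hY : s / 512 * T ≤ Y) (hD : 0 < D) (hD' : D ≤ 400 * c * T) :
    1 ≤ 4 * X * Y / D ^ 2 := by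
  rw [le_div_iff₀ (by positivity), one_mul]
  have hX0 : 0 < X := lt_of_lt_of_le (by positivity) hX
  have h6 : D ^ 2 ≤ (400 * c * T) ^ 2 := pow_le_pow_left₀ hD.le hD' 2
  have h7 : (s * T) * (s / 512 * T) ≤ X * Y :=
    mul_le_mul hX hY (by positivity) hX0.le
  have h8 : (400 * c * T) ^ 2 ≤ 4 * ((s * T) * (s / 512 * T)) := by
    have h9 : 400 * c ≤ s / 100 := by linarith
    have h10 : (400 * c) ^ 2 ≤ (s / 100) ^ 2 := pow_le_pow_left₀ (by positivity) h9 2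
    have h11 : (400 * c * T) ^ 2 = (400 * c) ^ 2 * T ^ 2 := by ring
    have h12 : 4 * ((s * T) * (s / 512 * T)) = s ^ 2 / 128 * T ^ 2 := by ring
    rw [h11, h12]
    apply mul_le_mul_of_nonneg_right _ (by positivity)
    nlinarith [sq_nonneg s]
  linarith

lemma arg_one_add {w : ℂ} (hw : ‖w‖ ≤ 1 / 2) : |Complex.arg (1 + w)| ≤ 3 / 2 * ‖w‖ := by
  rw [← Complex.log_im]
  exact (Complex.abs_im_le_norm _).trans (Complex.norm_log_one_add_half_le_self hw)

end S57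

open S57 in
theorem st_S7 (h0 : ST_SEC0) : ST_S7 := by
  intro i a b ha hb
  have hm := mm_ge i
  have hm9 := mm_le i
  have hpi := Real.pi_pos
  have hal := al_pos i
  have hbe := be_lt i
  obtain ⟨s, hs0, hs⟩ := sin_min i ((al i + a) / 2) ((be i + b) / 2) (by linarith) (by linarith)
  obtain ⟨δ, hδ0, hδ1, hδ2⟩ : ∃ δ : ℝ, 0 < δ ∧ δ ≤ (a - al i) / 2 ∧ δ ≤ (be i - b) / 2 :=
    ⟨min ((a - al i) / 2) ((be i - b) / 2), lt_min (by linarith) (by linarith), min_le_left _ _,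
      min_le_right _ _⟩
  obtain ⟨c, hc0, hc1, hc2, hc3⟩ : ∃ c : ℝ, 0 < c ∧ c ≤ 1 / 1000 ∧ c ≤ δ / 2 ∧ c ≤ s / 40000 :=
    ⟨min (1 / 1000) (min (δ / 2) (s / 40000)), lt_min (by norm_num) (lt_min (by linarith)
      (by linarith)), min_le_left _ _, (min_le_right _ _).trans (min_le_left _ _),
      (min_le_right _ _).trans (min_le_right _ _)⟩
  refine ⟨c, hc0, by linarith, ?_⟩
  intro x hx0 hxa R hR y hyx hy
  have hxn : 0 < ‖x‖ := norm_pos_iff.2 hx0
  have hR0 : 0 < R := by linarith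
  obtain ⟨w, hw⟩ : ∃ w : ℂ, y = x * (1 + w) := ⟨y / x - 1, by field_simp; ring⟩
  have hyw : y - x = x * w := by rw [hw]; ring
  have hw0 : w ≠ 0 := by
    rintro rfl; apply hyx; rw [hw]; ring
  have hwn : ‖w‖ ≤ c := by
    rw [hyw, norm_mul, mul_comm] at hy
    exact le_of_mul_le_mul_right hy hxn
  have h1w : 1 + w ≠ 0 := by
    intro h
    have : w = -1 := by linear_combination h
    rw [this, norm_neg, norm_one] at hwn
    linarith
  have hy0 : y ≠ 0 := by rw [hw]; exact mul_ne_zero hx0 h1w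
  have harg1 := arg_one_add (show ‖w‖ ≤ 1 / 2 by linarith)
  have harg2 : |Complex.arg (1 + w)| ≤ δ := harg1.trans (by linarith)
  have hxa1 := hxa.1
  have hxa2 := hxa.2
  have harg3 := abs_le.1 harg2
  have harg : Complex.arg y = Complex.arg x + Complex.arg (1 + w) := by
    rw [hw]
    apply (Complex.arg_mul_eq_add_arg_iff hx0 h1w).2
    constructor <;> linarith
  have hyn1 : ‖y‖ ≤ 3 / 2 * ‖x‖ := by
    have : ‖y‖ ≤ ‖x‖ + ‖y - x‖ := by
      have := norm_add_le x (y - x); rwa [add_sub_cancel] at this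
    nlinarith
  have hyn2 : ‖x‖ / 2 ≤ ‖y‖ := by
    have : ‖x‖ ≤ ‖y‖ + ‖y - x‖ := by
      have := norm_sub_le y (y - x); rwa [sub_sub_cancel] at this
    nlinarith
  have hyn : 0 < ‖y‖ := norm_pos_iff.2 hy0
  have hxArm : x ∈ Arm i := ⟨hx0, by linarith, by linarith⟩
  have hyArm : y ∈ Arm i := ⟨hy0, by rw [harg]; linarith, by rw [harg]; linarith⟩
  have hX := h0.2.1 i x hxArm
  have hY := h0.2.1 i y hyArm
  have hsx : s ≤ Real.sin (mm i * (Complex.arg x - al i)) := hs _ ⟨by linarith, by linarith⟩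
  have hsy : s ≤ Real.sin (mm i * (Complex.arg y - al i)) := by
    apply hs
    rw [harg]
    constructor <;> linarith
  have hs1 : s ≤ 1 := hsx.trans (Real.sin_le_one _)
  have hyp : ‖x‖ ^ mm i / 512 ≤ ‖y‖ ^ mm i := by
    have h2 : (‖x‖ / 2) ^ mm i ≤ ‖y‖ ^ mm i := pow_le_pow_left₀ (by positivity) hyn2 _
    refine le_trans ?_ h2
    rw [div_pow]
    apply div_le_div_of_nonneg_left (by positivity) (by positivity)
    have : (2 : ℝ) ^ mm i ≤ 2 ^ 9 := pow_le_pow_right₀ (by norm_num) hm9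
    linarith
  have hXim : s * ‖x‖ ^ mm i ≤ (pw i x).im := by
    rw [hX.2.2, mul_comm]
    exact mul_le_mul_of_nonneg_left hsx (by positivity)
  have hYim : s / 512 * ‖x‖ ^ mm i ≤ (pw i y).im := by
    rw [hY.2.2]
    have h3 : s * (‖x‖ ^ mm i / 512) ≤ ‖y‖ ^ mm i * Real.sin (mm i * (Complex.arg y - al i)) := by
      rw [mul_comm]
      exact mul_le_mul hyp hsy hs0.le (by positivity)
    linarith
  refine ⟨⟨hyArm, by linarith⟩, ?_, ?_⟩
  · -- Green function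
    have hXY : pw i y = pw i x * (1 + w) ^ mm i := by rw [hw, pw_mul]
    have hne : pw i x - pw i y ≠ 0 := by
      rw [hXY]
      have h4 : pw i x - pw i x * (1 + w) ^ mm i = pw i x * (1 - (1 + w) ^ mm i) := by ring
      rw [h4]
      refine mul_ne_zero ?_ ?_
      · intro h5; have := hX.1; rw [h5] at this; simp at this
      · intro h5
        exact pow_ne_one hw0 hwn hc1 (mm i) (by omega) hm9 (sub_eq_zero.1 h5).symm
    have hdist : ‖pw i x - pw i y‖ ≤ 400 * c * ‖x‖ ^ mm i := by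
      rw [hXY]
      have h4 : pw i x - pw i x * (1 + w) ^ mm i = -(pw i x * ((1 + w) ^ mm i - 1)) := by ring
      rw [h4, norm_neg, norm_mul, norm_pw, mul_comm]
      exact mul_le_mul_of_nonneg_right (pow_sub_one_le hwn (by linarith) _ hm9) (by positivity)
    have hmir := mirror i hX.1 hY.1 (ρ := R) (by nlinarith) hR0
    unfold GAR
    set X := pw i x with hXd
    set Y := pw i y with hYd
    have hD : 0 < ‖X - Y‖ := norm_pos_iff.2 hne
    have hxm : 0 < ‖x‖ ^ mm i := by positivity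
    set T := ‖x‖ ^ mm i with hT
    have ht : 1 ≤ 4 * X.im * Y.im / ‖X - Y‖ ^ 2 :=
      big hs0 hc0 hxm hc3 hXim hYim hD hdist
    have hlog : (1 : ℝ) / 2 ≤ Real.log (1 + 4 * X.im * Y.im / ‖X - Y‖ ^ 2) := by
      have h13 : Real.log 2 ≤ Real.log (1 + 4 * X.im * Y.im / ‖X - Y‖ ^ 2) :=
        Real.log_le_log (by norm_num) (by linarith)
      have := Real.log_two_gt_d9
      linarith
    have hGA : GA i x y = 1 / (4 * Real.pi) * Real.log (1 + 4 * X.im * Y.im / ‖X - Y‖ ^ 2) := rfl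
    rw [hGA]
    have hXi : X.im ≤ T := by
      have := (le_abs_self _).trans (Complex.abs_im_le_norm X)
      rwa [hXd, norm_pw] at this
    have hYi : Y.im ≤ ‖y‖ ^ mm i := by
      have := (le_abs_self _).trans (Complex.abs_im_le_norm Y)
      rwa [hYd, norm_pw] at this
    have hsmall : 5 * X.im * Y.im / R ^ (2 * mm i) ≤ 1 / 100 :=
      small hm hxn.le hyn.le hR0 hY.1.le (by nlinarith) hXi hYi
    have hpi4 : 1 / (4 * Real.pi) * (49 / 100) ≤ 1 / (4 * Real.pi) *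
        (Real.log (1 + 4 * X.im * Y.im / ‖X - Y‖ ^ 2) - 5 * X.im * Y.im / R ^ (2 * mm i)) :=
      mul_le_mul_of_nonneg_left (by linarith) (by positivity)
    rw [mul_sub] at hpi4
    have hcc := cc hc1
    linarith
  · refine le_trans ?_ hYim
    apply mul_le_mul_of_nonneg_right _ (by positivity)
    linarith

end LEP
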