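import Pool.Agent.Helper14.LE.Stmts2

open MeasureTheory Set Filter Topology InnerProductSpace

noncomputable section

namespace LEP

theorem st_TWO : ST_TWO := by
  intro H _ _ k1 k2 hm hD
  set a := ⟪k1, k1⟫_ℝ with ha
  set b := ⟪k2, k2⟫_ℝ with hb
  set m := ⟪k1, k2⟫_ℝ with hmm
  have ha0 : 0 ≤ a := real_inner_self_nonneg
  have hb0 : 0 ≤ b := real_inner_self_nonneg
  have hΔ : 0 < a * b - m ^ 2 := by linarith
  set Δ' := a * b - m ^ 2 with hΔd
  have hm' : ⟪k2, k1⟫_ℝ = m := real_inner_comm _ _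
  refine ⟨Δ'⁻¹ • ((b + m) • k1 - (a + m) • k2), rfl, ?_, ?_, ?_, ?_⟩
  · rw [inner_smul_right, inner_sub_right, inner_smul_right, inner_smul_right, ← ha, ← hmm]
    rw [inv_mul_eq_one₀ hΔ.ne', hΔd]; ring
  · rw [inner_smul_right, inner_sub_right, inner_smul_right, inner_smul_right, ← hb, hm']
    rw [inv_mul_eq_iff_eq_mul₀ hΔ.ne', hΔd]; ring
  · rw [← real_inner_self_eq_norm_sq, inner_smul_right, inner_smul_left, inner_sub_right,
      inner_sub_left, inner_sub_left, inner_smul_right, inner_smul_right, inner_smul_left,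
      inner_smul_left, inner_smul_left, inner_smul_left, inner_smul_right, inner_smul_right,
      ← ha, ← hb, ← hmm, hm']
    simp only [conj_trivial]
    unfold cE
    rw [← hΔd]
    field_simp
    rw [hΔd]; ring
  · intro v h1 h2
    set v0 := Δ'⁻¹ • ((b + m) • k1 - (a + m) • k2) with hv0
    have e1 : ⟪v0, v⟫_ℝ = Δ'⁻¹ * ((b + m) * ⟪k1, v⟫_ℝ - (a + m) * ⟪k2, v⟫_ℝ) := by
      rw [hv0, inner_smul_left, inner_sub_left, inner_smul_left, inner_smul_left]
      simp only [conj_trivial]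
    have e2 : ‖v0‖ ^ 2 = Δ'⁻¹ * (a + b + 2 * m) := by
      rw [← real_inner_self_eq_norm_sq, hv0, inner_smul_right, inner_smul_left, inner_sub_right,
        inner_sub_left, inner_sub_left, inner_smul_right, inner_smul_right, inner_smul_left,
        inner_smul_left, inner_smul_left, inner_smul_left, inner_smul_right, inner_smul_right,
        ← ha, ← hb, ← hmm, hm']
      simp only [conj_trivial]
      field_simp
      rw [hΔd]; ring
    have e3 : ‖v0‖ ^ 2 ≤ ⟪v0, v⟫_ℝ := by
      rw [e1, e2]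
      apply mul_le_mul_of_nonneg_left _ (inv_nonneg.2 hΔ.le)
      nlinarith
    have e4 : ‖v - v0‖ ^ 2 ≤ ‖v‖ ^ 2 - ‖v0‖ ^ 2 := by
      rw [norm_sub_sq_real, real_inner_comm v0 v]
      linarith
    have e5 : cE a b m = ‖v0‖ ^ 2 / 2 := by
      rw [e2]
      unfold cE
      rw [← hΔd]
      field_simp
    rw [e5]
    refine ⟨by nlinarith [sq_nonneg ‖v - v0‖], fun h3 => ?_⟩
    have e6 : ‖v - v0‖ ^ 2 ≤ 0 := by linarith
    have e7 : ‖v - v0‖ = 0 := by
      have := le_antisymm e6 (sq_nonneg _)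
      exact pow_eq_zero_iff (two_ne_zero) |>.1 this
    exact sub_eq_zero.1 (norm_eq_zero.1 e7)

end LEP
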